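import Pool.Agent.H61.FM.Targets
import Pool.Agent.H61.GLH.FELow

/-!
MP_52e316_nt, board fmc_modules, row GML: a lower bound for the factor of the completed
`L`-function.
-/

set_option autoImplicit false

open MeasureTheory Set Filter NumberField
open scoped Real nonZeroDivisors

namespace Pool.Agent.H42.FM

open Pool.Agent.H31.CN Pool.Agent.H89.FM Pool.Agent.H61.FM
open Pool.Agent.H61.GLH Pool.Agent.H23.GLH

/-- the lower bound of the `Γ`-function near the critical line -/
theorem Gamma_low (s : ℂ) (hs : |s.re - 1 / 2| ≤ 1 / 8) :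
    Real.exp (-(π * |s.im| / 2)) ≤ 2 * G0 * (1 + |s.im|) * ‖Complex.Gamma s‖ := by
  have hπ := Real.pi_pos
  have hπ3 := Real.pi_gt_three
  have hG := G0_pos
  obtain ⟨h1, h2⟩ := abs_le.1 hs
  have ht := abs_nonneg s.im
  have hn := norm_nonneg (Complex.Gamma s)
  have hE : 0 < Real.exp (-(π * |s.im| / 2)) := Real.exp_pos _
  have hse : ((s.re : ℂ) + (s.im : ℂ) * Complex.I) = s := Complex.re_add_im s
  rcases le_or_gt (1 / 2) s.re with h | h
  · have h3 := norm_Gamma_lower (σ := s.re) (t := s.im) h (by linarith)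
    rw [hse] at h3
    have h4 : 1 ≤ (1 + |s.im|) ^ (s.re - 1 / 2) :=
      Real.one_le_rpow (by linarith) (by linarith)
    have h5 : 1 / (2 * G0) * Real.exp (-(π * |s.im| / 2)) ≤ ‖Complex.Gamma s‖ := by
      refine le_trans ?_ h3
      have h6 : 1 / (2 * G0) * 1 ≤ 1 / (2 * G0) * (1 + |s.im|) ^ (s.re - 1 / 2) := by gcongr
      rw [mul_one] at h6
      gcongr
    have h7 : Real.exp (-(π * |s.im| / 2)) ≤ 2 * G0 * ‖Complex.Gamma s‖ := by
      rw [div_mul_eq_mul_div, one_mul, div_le_iff₀ (by positivity)] at h5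
      linarith
    refine h7.trans ?_
    have h8 : 2 * G0 * 1 ≤ 2 * G0 * (1 + |s.im|) := by gcongr; linarith
    rw [mul_one] at h8
    gcongr
  · have hΓ : ‖Complex.Gamma (1 - s)‖ ≤ G0 * (1 + |s.im|) * Real.exp (-(π * |s.im| / 2)) := by
      have h3 := norm_Gamma_strip (1 - s.re) (-s.im) (by linarith) (by linarith)
      have e : (((1 - s.re : ℝ) : ℂ) + ((-s.im : ℝ) : ℂ) * Complex.I) = 1 - s := by
        apply Complex.ext <;> simp
      rw [e, abs_neg] at h3
      have h4 : (1 + |s.im|) ^ (1 - s.re - 1 / 2) ≤ 1 + |s.im| := by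
        have h5 := Real.rpow_le_rpow_of_exponent_le (x := 1 + |s.im|) (by linarith)
          (show 1 - s.re - 1 / 2 ≤ 1 by linarith)
        rwa [Real.rpow_one] at h5
      refine h3.trans ?_
      have h6 : G0 * (1 + |s.im|) ^ (1 - s.re - 1 / 2) ≤ G0 * (1 + |s.im|) := by gcongr
      have h7 : G0 = 4 * Real.sqrt (2 * Real.pi) * Real.exp (9 / 4) := rfl
      rw [← h7]
      gcongr
    have hrefl := Complex.Gamma_mul_Gamma_one_sub s
    have hsin : ‖Complex.sin (Real.pi * s)‖ ≤ Real.exp (Real.pi * |s.im|) := by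
      refine (norm_sin_le _).trans (le_of_eq ?_)
      rw [Complex.im_ofReal_mul, abs_mul, abs_of_pos hπ]
    have hsin0 : Complex.sin (Real.pi * s) ≠ 0 := by
      intro h0
      have h3 := norm_sin_sq (Real.pi * s)
      rw [h0, norm_zero, Complex.re_ofReal_mul, Complex.im_ofReal_mul] at h3
      have h4 : 0 < Real.sin (Real.pi * s.re) := by
        apply Real.sin_pos_of_pos_of_lt_pi
        · apply mul_pos hπ; linarith
        · nlinarith
      have h5 : 0 < Real.sin (Real.pi * s.re) ^ 2 := by positivity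
      have h6 := sq_nonneg (Real.sinh (Real.pi * s.im))
      norm_num at h3
      linarith
    have h3 : ‖Complex.Gamma s‖ * ‖Complex.Gamma (1 - s)‖ * ‖Complex.sin (Real.pi * s)‖ =
        Real.pi := by
      rw [← norm_mul, hrefl, norm_div, Complex.norm_real, Real.norm_of_nonneg hπ.le,
        div_mul_cancel₀]
      exact norm_ne_zero_iff.mpr hsin0
    have h4 : Real.pi ≤ ‖Complex.Gamma s‖ * (G0 * (1 + |s.im|) *
        Real.exp (Real.pi * |s.im| / 2)) := by
      calc Real.pi = ‖Complex.Gamma s‖ * ‖Complex.Gamma (1 - s)‖ *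
            ‖Complex.sin (Real.pi * s)‖ := h3.symm
        _ ≤ ‖Complex.Gamma s‖ * (G0 * (1 + |s.im|) * Real.exp (-(Real.pi * |s.im| / 2))) *
            Real.exp (Real.pi * |s.im|) := by gcongr
        _ = ‖Complex.Gamma s‖ * (G0 * (1 + |s.im|) *
            (Real.exp (-(Real.pi * |s.im| / 2)) * Real.exp (Real.pi * |s.im|))) := by ring
        _ = _ := by
            rw [← Real.exp_add]
            congr 3; ring
    have h5 : Real.exp (-(π * |s.im| / 2)) * Real.exp (Real.pi * |s.im| / 2) = 1 := by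
      rw [← Real.exp_add]
      have : -(π * |s.im| / 2) + Real.pi * |s.im| / 2 = 0 := by ring
      rw [this, Real.exp_zero]
    have h6 : Real.pi * Real.exp (-(π * |s.im| / 2)) ≤
        G0 * (1 + |s.im|) * ‖Complex.Gamma s‖ := by
      calc Real.pi * Real.exp (-(π * |s.im| / 2))
          ≤ ‖Complex.Gamma s‖ * (G0 * (1 + |s.im|) * Real.exp (Real.pi * |s.im| / 2)) *
            Real.exp (-(π * |s.im| / 2)) := by gcongr
        _ = G0 * (1 + |s.im|) * ‖Complex.Gamma s‖ *
            (Real.exp (-(π * |s.im| / 2)) * Real.exp (Real.pi * |s.im| / 2)) := by ring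
        _ = _ := by rw [h5, mul_one]
    have h7 : 0 ≤ G0 * (1 + |s.im|) * ‖Complex.Gamma s‖ := by positivity
    nlinarith

theorem pf_GML : T_GML := by
  have hπ := Real.pi_pos
  have hG := G0_pos
  refine ⟨2 * G0 * ((64 / 9) * (2 * π)), 1, by positivity, fun s hs => ?_⟩
  have h0 := Gamma_low s hs
  obtain ⟨h1, h2⟩ := abs_le.1 hs
  have ht := abs_nonneg s.im
  have hn := norm_nonneg (Complex.Gamma s)
  have hs1 : 3 / 8 ≤ ‖s‖ := by
    have h3 := Complex.abs_re_le_norm s
    have h4 := le_abs_self s.re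
    linarith
  have hs2 : 3 / 8 ≤ ‖s - 1‖ := by
    have h3 := Complex.abs_re_le_norm (s - 1)
    rw [Complex.sub_re, Complex.one_re] at h3
    have h4 := neg_abs_le (s.re - 1)
    linarith
  have hp : (2 * π)⁻¹ ≤ ‖(2 * (π : ℂ)) ^ (-s)‖ := by
    have e : (2 * (π : ℂ)) = ((2 * π : ℝ) : ℂ) := by push_cast; ring
    rw [e, Complex.norm_cpow_eq_rpow_re_of_pos (by positivity), Complex.neg_re,
      ← Real.rpow_neg_one]
    refine Real.rpow_le_rpow_of_exponent_le ?_ (by linarith)
    have := Real.pi_gt_three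
    linarith
  have hg : ‖gG s‖ = ‖s‖ * ‖s - 1‖ * ‖Complex.Gamma s‖ * ‖(2 * (π : ℂ)) ^ (-s)‖ := by
    unfold gG
    rw [norm_mul, norm_mul, norm_mul]
  have h5 : (3 / 8) * (3 / 8) * ‖Complex.Gamma s‖ * (2 * π)⁻¹ ≤ ‖gG s‖ := by
    rw [hg]
    gcongr
  have h6 : ‖Complex.Gamma s‖ ≤ (64 / 9) * (2 * π) * ‖gG s‖ := by
    have h7 : (64 / 9) * (2 * π) * ((3 / 8) * (3 / 8) * ‖Complex.Gamma s‖ * (2 * π)⁻¹) =
        ‖Complex.Gamma s‖ := by
      field_simp
      ring
    calc ‖Complex.Gamma s‖ = (64 / 9) * (2 * π) * ((3 / 8) * (3 / 8) * ‖Complex.Gamma s‖ *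
          (2 * π)⁻¹) := h7.symm
      _ ≤ _ := by gcongr
  rw [pow_one]
  calc Real.exp (-(π * |s.im| / 2)) ≤ 2 * G0 * (1 + |s.im|) * ‖Complex.Gamma s‖ := h0
    _ ≤ 2 * G0 * (1 + |s.im|) * ((64 / 9) * (2 * π) * ‖gG s‖) := by gcongr
    _ = _ := by ring

end Pool.Agent.H42.FM
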