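import Pool.Agent.H61.FM.Targets
import Pool.Agent.H29.THC.DFV

/-!
MP_52e316_nt, board fmc_modules, row DVB: the divisor bound for the coefficients.
-/

set_option autoImplicit false

open MeasureTheory Set Filter NumberField
open scoped Real nonZeroDivisors

namespace Pool.Agent.H42.FM

open Pool.Agent.H31.CN Pool.Agent.H89.FM Pool.Agent.H61.FM

theorem norm_pv {K : Type} [Field K] [NumberField K] (ψ : CC K) (I : (Ideal (𝓞 K))⁰) :
    ‖pv ψ I‖ = 1 := by
  unfold pv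
  set g := ClassGroup.mk0 I
  have h1 : (((ψ g : ℂˣ) : ℂ)) ^ Fintype.card (ClassGroup (𝓞 K)) = 1 := by
    rw [← Units.val_pow_eq_pow_val, ← map_pow, pow_card_eq_one, map_one, Units.val_one]
  exact Complex.norm_eq_one_of_pow_eq_one h1 Fintype.card_ne_zero

theorem pf_DVB : T_DVB := by
  intro ε hε
  obtain ⟨C, hC⟩ := Pool.Agent.H29.THC.pf_DV 2 (ε / 2) (half_pos hε)
  refine ⟨max C 1, lt_of_lt_of_le one_pos (le_max_right _ _), ?_⟩
  intro K _ _ D hD ψ n hn
  have hn0 : (n : 𝓞 K) ≠ 0 := by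
    have : n ≠ 0 := by omega
    exact_mod_cast this
  have hk : Ideal.span {(n : 𝓞 K)} ≠ ⊥ := by
    rw [Ne, Ideal.span_singleton_eq_bot]
    exact hn0
  have h1 : ‖lm ψ n‖ ≤ ((Nn K n).card : ℝ) := by
    unfold lm
    refine (norm_sum_le _ _).trans ?_
    rw [Finset.sum_congr rfl (fun I _ => norm_pv ψ I), Finset.sum_const, nsmul_eq_mul, mul_one]
  have h2 : (Nn K n).card ≤ (Pool.Agent.H29.TC.dvs K (Ideal.span {(n : 𝓞 K)})).card := by
    refine Finset.card_le_card_of_injOn (fun I => (I : Ideal (𝓞 K))) ?_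
      (Subtype.val_injective.injOn)
    intro I hI
    have hI' : nm I = n := mem_Nn.1 hI
    have h3 : (I : Ideal (𝓞 K)) ∈ Pool.Agent.H29.TC.dvs K (Ideal.span {(n : 𝓞 K)}) := by
      rw [Pool.Agent.H29.THC.pf_DF K _ hk, Ideal.span_singleton_le_iff_mem]
      have h4 := Ideal.absNorm_mem (I : Ideal (𝓞 K))
      have h5 : Ideal.absNorm (I : Ideal (𝓞 K)) = n := hI'
      rwa [h5] at h4
    exact h3
  have h3 := hC K hD.rk _ hk
  have hn1 : (0 : ℝ) ≤ (n : ℝ) := Nat.cast_nonneg n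
  have h4 : Pool.Agent.H23.LB.Nf K (Ideal.span {(n : 𝓞 K)}) = (n : ℝ) ^ 2 := by
    unfold Pool.Agent.H23.LB.Nf
    rw [Ideal.absNorm_span_natCast, RingOfIntegers.rank, hD.rk]
    push_cast
    rfl
  have h5 : ((n : ℝ) ^ 2) ^ (ε / 2) = (n : ℝ) ^ ε := by
    rw [← Real.rpow_natCast, ← Real.rpow_mul hn1]
    congr 1
    push_cast
    ring
  rw [h4, h5] at h3
  calc ‖lm ψ n‖ ≤ ((Nn K n).card : ℝ) := h1
    _ ≤ ((Pool.Agent.H29.TC.dvs K (Ideal.span {(n : 𝓞 K)})).card : ℝ) := by exact_mod_cast h2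
    _ ≤ C * (n : ℝ) ^ ε := h3
    _ ≤ max C 1 * (n : ℝ) ^ ε := by
        have := Real.rpow_nonneg hn1 ε
        have h6 := le_max_left C 1
        gcongr

end Pool.Agent.H42.FM
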